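import Pool.Agent.Work.MP_b5407d_lp_helper81.Common

set_option autoImplicit false
open MeasureTheory Real Filter Topology
open scoped ContDiff

namespace Pool.Agent.Work.LPBM.helper81

open Pool.Agent.Work.LPBM

lemma int_W (hSW : Stmt_SW0) (hINT : Stmt_INT) {n : ℕ} {ι : Type} [Fintype ι] {k : ℝ}
    (hk : 0 < k) {θ : ι → E n} (hθ : Span θ) (h : ι → ℝ) (l : E n) :
    Integrable (fun x => W k θ h l x) := by
  have := integrable_W hSW hINT hk hθ h l (fun _ => 1) continuous_const 1 0 0 zero_le_one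
    (fun x => by simp)
  simpa using this

lemma J_pos (hSW : Stmt_SW0) (hINT : Stmt_INT) {n : ℕ} {ι : Type} [Fintype ι] {k : ℝ}
    (hk : 0 < k) {θ : ι → E n} (hθ : Span θ) (h : ι → ℝ) (l : E n) : 0 < J k θ h l := by
  unfold J
  exact integral_pos_of_pos' (int_W hSW hINT hk hθ h l) (W_pos k θ h l)
where
  integral_pos_of_pos' {n : ℕ} {f : E n → ℝ} (hf : Integrable f) (hp : ∀ x, 0 < f x) :
      0 < ∫ x, f x := by
    rw [integral_pos_iff_support_of_nonneg (fun x => (hp x).le) hf]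
    have : Function.support f = Set.univ := by
      ext x; simp [(hp x).ne']
    rw [this]
    exact Measure.measure_univ_pos.2 (NeZero.ne _)

theorem stmt_MIN (hSW : Stmt_SW0) (hINT : Stmt_INT) : Stmt_MIN := by
  classical
  intro n ι _ k θ hk hθ h c hh hpos hc
  have hne : (Set.Icc (0 : ℝ) 1).Nonempty := ⟨0, by simp⟩
  have hcpt : IsCompact (Set.Icc (0 : ℝ) 1) := isCompact_Icc
  have hG0 := contG0 hSW
  -- bound of h
  obtain ⟨H, hH⟩ : ∃ H : ℝ, ∀ t ∈ Set.Icc (0 : ℝ) 1, ∀ i, |h t i| ≤ H := by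
    have : ∀ i, ∃ C, ∀ t ∈ Set.Icc (0 : ℝ) 1, |h t i| ≤ C := fun i =>
      hcpt.exists_bound_of_continuousOn (hh i)
    choose C hC using this
    refine ⟨∑ i, |C i|, fun t ht i => ?_⟩
    exact ((hC i t ht).trans (le_abs_self _)).trans
      (Finset.single_le_sum (f := fun i => |C i|) (fun i _ => abs_nonneg _) (Finset.mem_univ i))
  -- radius
  obtain ⟨ρ, hρ, hρ'⟩ : ∃ ρ : ℝ, 0 < ρ ∧ ∀ t ∈ Set.Icc (0 : ℝ) 1, ∀ i, ρ * ‖θ i‖ ≤ h t i := by
    have : ∀ i, ∃ δ : ℝ, 0 < δ ∧ ∀ t ∈ Set.Icc (0 : ℝ) 1, δ ≤ h t i := fun i => by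
      obtain ⟨t0, ht0, hmin⟩ := hcpt.exists_isMinOn hne (hh i)
      exact ⟨h t0 i, hpos t0 ht0 i, fun t ht => hmin ht⟩
    choose δ hδ hδ' using this
    obtain ⟨δ0, hδ0, hδ0'⟩ : ∃ δ0 : ℝ, 0 < δ0 ∧ ∀ i, δ0 ≤ δ i := by
      obtain ⟨c, hc, hc'⟩ := hθ
      obtain ⟨i0, _⟩ := hc' 0
      haveI : Nonempty ι := ⟨i0⟩
      obtain ⟨i1, hi1⟩ := Finite.exists_min δ
      exact ⟨δ i1, hδ i1, hi1⟩
    refine ⟨δ0 / (1 + ∑ i, ‖θ i‖), by positivity, fun t ht i => ?_⟩
    have h1 : ‖θ i‖ ≤ 1 + ∑ i, ‖θ i‖ := by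
      have := Finset.single_le_sum (f := fun i => ‖θ i‖) (fun i _ => norm_nonneg _)
        (Finset.mem_univ i)
      linarith
    have h2 : 0 < 1 + ∑ i, ‖θ i‖ := by positivity
    calc δ0 / (1 + ∑ i, ‖θ i‖) * ‖θ i‖ ≤ δ0 / (1 + ∑ i, ‖θ i‖) * (1 + ∑ i, ‖θ i‖) :=
          mul_le_mul_of_nonneg_left h1 (by positivity)
      _ = δ0 := by field_simp
      _ ≤ δ i := hδ0' i
      _ ≤ h t i := hδ' i t ht
  -- lower bound of J
  set v0 : ℝ := (volume (Metric.ball (0 : E n) (ρ / 4))).toReal with hv0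
  have hv0pos : 0 < v0 := by
    refine ENNReal.toReal_pos ?_ measure_ball_lt_top.ne
    exact (Metric.measure_ball_pos volume _ (by positivity)).ne'
  have hlow : ∀ t ∈ Set.Icc (0 : ℝ) 1, ∀ l : E n, exp (‖l‖ * (ρ / 2)) * v0 ≤ J k θ (h t) l := by
    intro t ht l
    by_cases hl : l = 0
    · -- ball around 0
      subst hl
      have hW1 : ∀ x ∈ Metric.ball (0 : E n) (ρ / 4), (1 : ℝ) ≤ W k θ (h t) 0 x := by
        intro x hx
        have hx' : ‖x‖ < ρ / 4 := by simpa using hx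
        have : Vpot k θ (h t) 0 x = 0 := by
          unfold Vpot Upot
          rw [inner_zero_left, sub_zero]
          refine Finset.sum_eq_zero fun i _ => ?_
          have h1 : inner ℝ (θ i) x ≤ ‖θ i‖ * ‖x‖ := real_inner_le_norm _ _
          have h2 : inner ℝ (θ i) x - h t i ≤ 0 := by
            have := hρ' t ht i
            nlinarith [norm_nonneg (θ i), norm_nonneg x]
          have h3 : k * (inner ℝ (θ i) x - h t i) ≤ 0 := mul_nonpos_of_nonneg_of_nonpos hk.le h2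
          simp [G0, h3]
        unfold W wt
        rw [this]; simp
      calc exp (‖(0 : E n)‖ * (ρ / 2)) * v0 = ∫ x in Metric.ball (0 : E n) (ρ / 4), (1 : ℝ) := by
            simp [hv0, Measure.real]
        _ ≤ ∫ x in Metric.ball (0 : E n) (ρ / 4), W k θ (h t) 0 x := by
            refine setIntegral_mono_on ?_ (int_W hSW hINT hk hθ _ _).integrableOn
              measurableSet_ball hW1
            exact integrableOn_const measure_ball_lt_top.ne
        _ ≤ J k θ (h t) 0 := setIntegral_le_integral (int_W hSW hINT hk hθ _ _)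
            (Filter.Eventually.of_forall fun x => (W_pos k θ (h t) 0 x).le)
    · have hln : 0 < ‖l‖ := norm_pos_iff.2 hl
      set y : E n := (3 * ρ / 4 / ‖l‖) • l with hy
      have hyn : ‖y‖ = 3 * ρ / 4 := by
        rw [hy, norm_smul, Real.norm_eq_abs, abs_of_pos (by positivity)]
        field_simp
      have hW1 : ∀ x ∈ Metric.ball y (ρ / 4), exp (‖l‖ * (ρ / 2)) ≤ W k θ (h t) l x := by
        intro x hx
        have hx' : ‖x - y‖ < ρ / 4 := by rw [← dist_eq_norm]; exact hx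
        have hxn : ‖x‖ < ρ := by
          calc ‖x‖ = ‖(x - y) + y‖ := by rw [sub_add_cancel]
            _ ≤ ‖x - y‖ + ‖y‖ := norm_add_le _ _
            _ < ρ / 4 + 3 * ρ / 4 := by rw [hyn]; linarith
            _ = ρ := by ring
        have hU : Upot k θ (h t) x = 0 := by
          unfold Upot
          refine Finset.sum_eq_zero fun i _ => ?_
          have h1 : inner ℝ (θ i) x ≤ ‖θ i‖ * ‖x‖ := real_inner_le_norm _ _
          have h2 : inner ℝ (θ i) x - h t i ≤ 0 := by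
            have := hρ' t ht i
            nlinarith [norm_nonneg (θ i), norm_nonneg x]
          have h3 : k * (inner ℝ (θ i) x - h t i) ≤ 0 := mul_nonpos_of_nonneg_of_nonpos hk.le h2
          simp [G0, h3]
        have hin : ‖l‖ * (ρ / 2) ≤ inner ℝ l x := by
          have e1 : inner ℝ l x = inner ℝ l y + inner ℝ l (x - y) := by
            rw [← inner_add_right]; congr 1; abel
          have e2 : inner ℝ l y = 3 * ρ / 4 * ‖l‖ := by
            rw [hy, inner_smul_right, real_inner_self_eq_norm_sq]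
            field_simp
          have e3 : |inner ℝ l (x - y)| ≤ ‖l‖ * ‖x - y‖ := abs_real_inner_le_norm _ _
          have e4 : -(‖l‖ * (ρ / 4)) ≤ inner ℝ l (x - y) := by
            have := neg_abs_le (inner ℝ l (x - y))
            have h5 : ‖l‖ * ‖x - y‖ ≤ ‖l‖ * (ρ / 4) :=
              mul_le_mul_of_nonneg_left hx'.le hln.le
            linarith
          rw [e1, e2]
          nlinarith
        unfold W wt Vpot
        rw [hU]
        refine exp_le_exp.2 ?_
        linarith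
      have hvol : (volume (Metric.ball y (ρ / 4))).toReal = v0 := by
        rw [hv0, Measure.addHaar_ball_center]
      calc exp (‖l‖ * (ρ / 2)) * v0
          = ∫ x in Metric.ball y (ρ / 4), exp (‖l‖ * (ρ / 2)) := by
            rw [setIntegral_const, smul_eq_mul, Measure.real, hvol, mul_comm]
        _ ≤ ∫ x in Metric.ball y (ρ / 4), W k θ (h t) l x := by
            refine setIntegral_mono_on ?_ (int_W hSW hINT hk hθ _ _).integrableOn
              measurableSet_ball hW1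
            exact integrableOn_const measure_ball_lt_top.ne
        _ ≤ J k θ (h t) l := setIntegral_le_integral (int_W hSW hINT hk hθ _ _)
            (Filter.Eventually.of_forall fun x => (W_pos k θ (h t) l x).le)
  -- continuity
  have hcontJ : ContinuousOn (fun q : ℝ × E n => J k θ (h q.1) q.2) (Set.Icc 0 1 ×ˢ Set.univ) := by
    rintro ⟨t, l⟩ ⟨ht, -⟩
    simp only at ht
    obtain ⟨B, hB, hBb⟩ := hINT n ι θ hθ k k H (‖l‖ + 1) hk 0
    unfold J
    refine tendsto_integral_filter_of_dominated_convergence B ?_ ?_ hB ?_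
    · exact Filter.Eventually.of_forall fun q => (contW hSW k θ (h q.1) q.2).aestronglyMeasurable
    · have hU : {q : ℝ × E n | q.2 ∈ Metric.ball l 1} ∈ 𝓝 (t, l) :=
        (continuous_snd.tendsto (t, l)).eventually (Metric.ball_mem_nhds l one_pos)
      filter_upwards [mem_nhdsWithin_of_mem_nhds hU, self_mem_nhdsWithin] with q hq1 hq2
      refine Filter.Eventually.of_forall fun x => ?_
      rw [Real.norm_eq_abs, abs_of_pos (W_pos _ _ _ _ _)]
      have hq3 : ‖q.2‖ ≤ ‖l‖ + 1 := by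
        have : ‖q.2 - l‖ < 1 := by rw [← dist_eq_norm]; exact hq1
        have h2 : ‖q.2‖ ≤ ‖q.2 - l‖ + ‖l‖ := by
          calc ‖q.2‖ = ‖(q.2 - l) + l‖ := by rw [sub_add_cancel]
            _ ≤ _ := norm_add_le _ _
        linarith
      have h1 := hBb k (h q.1) q.2 le_rfl le_rfl (fun i => hH q.1 hq2.1 i) hq3 x
      rw [pow_zero, mul_one] at h1
      have h2 : (1 : ℝ) ≤ exp ((‖l‖ + 1) * ‖x‖) := Real.one_le_exp (by positivity)
      calc W k θ (h q.1) q.2 x = 1 * W k θ (h q.1) q.2 x := (one_mul _).symm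
        _ ≤ exp ((‖l‖ + 1) * ‖x‖) * W k θ (h q.1) q.2 x :=
          mul_le_mul_of_nonneg_right h2 (W_pos _ _ _ _ _).le
        _ ≤ B x := h1
    · refine Filter.Eventually.of_forall fun x => ?_
      have hfst : Tendsto (fun q : ℝ × E n => q.1) (𝓝[Set.Icc 0 1 ×ˢ Set.univ] (t, l))
          (𝓝[Set.Icc 0 1] t) := by
        refine tendsto_nhdsWithin_iff.2 ⟨(continuous_fst.tendsto (t, l)).mono_left
          nhdsWithin_le_nhds, ?_⟩
        filter_upwards [self_mem_nhdsWithin] with q hq using hq.1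
      have hsnd : Tendsto (fun q : ℝ × E n => q.2) (𝓝[Set.Icc 0 1 ×ˢ Set.univ] (t, l)) (𝓝 l) :=
        (continuous_snd.tendsto (t, l)).mono_left nhdsWithin_le_nhds
      have hhi : ∀ i, Tendsto (fun q : ℝ × E n => h q.1 i)
          (𝓝[Set.Icc 0 1 ×ˢ Set.univ] (t, l)) (𝓝 (h t i)) := fun i =>
        ((hh i) t ht).tendsto.comp hfst
      unfold W wt Vpot Upot
      refine (Real.continuous_exp.tendsto _).comp (Tendsto.neg (Tendsto.sub ?_ ?_))
      · refine tendsto_finsetSum _ fun i _ => ?_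
        exact (hG0.tendsto _).comp ((tendsto_const_nhds.sub (hhi i)).const_mul k)
      · exact hsnd.inner tendsto_const_nhds
  set Φ : ℝ × E n → ℝ := fun q => log (J k θ (h q.1) q.2) + c q.1 with hΦ
  have hΦc : ContinuousOn Φ (Set.Icc 0 1 ×ˢ Set.univ) := by
    refine ContinuousOn.add (hcontJ.log fun q _ => (J_pos hSW hINT hk hθ _ _).ne') ?_
    exact hc.comp continuousOn_fst fun q hq => hq.1
  obtain ⟨cm, hcm⟩ : ∃ cm : ℝ, ∀ t ∈ Set.Icc (0 : ℝ) 1, |c t| ≤ cm :=
    hcpt.exists_bound_of_continuousOn hc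
  -- compact set
  set M : ℝ := Φ (0, 0) with hM
  obtain ⟨R0, hR0, hR0'⟩ : ∃ R0 : ℝ, 0 ≤ R0 ∧ ∀ r, R0 ≤ r → M ≤ r * (ρ / 2) + log v0 - cm := by
    refine ⟨max 0 ((M - log v0 + cm) / (ρ / 2)), le_max_left _ _, fun r hr => ?_⟩
    have h1 : (M - log v0 + cm) / (ρ / 2) ≤ r := (le_max_right _ _).trans hr
    have h2 : M - log v0 + cm ≤ r * (ρ / 2) := by
      rw [div_le_iff₀ (by positivity)] at h1
      exact h1
    linarith
  have hK : IsCompact (Set.Icc (0 : ℝ) 1 ×ˢ Metric.closedBall (0 : E n) R0) :=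
    hcpt.prod (isCompact_closedBall _ _)
  obtain ⟨⟨t0, l0⟩, hq0, hmin⟩ := hK.exists_isMinOn
    ⟨(0, 0), by simp [hR0]⟩ (hΦc.mono (Set.prod_mono le_rfl (Set.subset_univ _)))
  refine ⟨t0, hq0.1, l0, fun t ht l => ?_⟩
  by_cases hlR : ‖l‖ ≤ R0
  · have hm : (t, l) ∈ Set.Icc (0 : ℝ) 1 ×ˢ Metric.closedBall (0 : E n) R0 :=
      Set.mk_mem_prod ht (by simpa using hlR)
    have h9 : Φ (t0, l0) ≤ Φ (t, l) := isMinOn_iff.1 hmin (t, l) hm
    simpa only [hΦ] using h9
  · rw [not_le] at hlR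
    have hm : ((0 : ℝ), (0 : E n)) ∈ Set.Icc (0 : ℝ) 1 ×ˢ Metric.closedBall (0 : E n) R0 :=
      Set.mk_mem_prod (by simp) (by simpa using hR0)
    have h1 : Φ (t0, l0) ≤ M := isMinOn_iff.1 hmin (0, 0) hm
    have h2 := hR0' ‖l‖ hlR.le
    have h3 : ‖l‖ * (ρ / 2) + log v0 ≤ log (J k θ (h t) l) := by
      have h4 := Real.log_le_log (by positivity) (hlow t ht l)
      rw [Real.log_mul (exp_pos _).ne' hv0pos.ne', Real.log_exp] at h4
      exact h4
    have h5 := abs_le.1 (hcm t ht)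
    have h6 : Φ (t0, l0) = log (J k θ (h t0) l0) + c t0 := by simp only [hΦ]
    rw [← h6]
    linarith [h5.1]

end Pool.Agent.Work.LPBM.helper81
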