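import Pool.Agent.Work.MP_b5407d_lp_helper81.Common

set_option autoImplicit false
open MeasureTheory Real Filter Topology
open scoped ContDiff

namespace Pool.Agent.Work.LPBM.helper81

open Pool.Agent.Work.LPBM

lemma pd_contDiff {n : ℕ} {u : E n → ℝ} (hu : ContDiff ℝ ∞ u) (j : Fin n) :
    ContDiff ℝ ∞ (pd j u) := by
  unfold pd
  exact (hu.fderiv_right (m := ∞) (by simp)).clm_apply contDiff_const

lemma pd_compact {n : ℕ} {u : E n → ℝ} (hu : HasCompactSupport u) (j : Fin n) :
    HasCompactSupport (pd j u) := by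
  unfold pd
  exact (hu.fderiv (𝕜 := ℝ)).comp_left (g := fun L : E n →L[ℝ] ℝ =>
    L (EuclideanSpace.single j (1 : ℝ))) (by simp)

lemma test_bdd {n : ℕ} {f : E n → ℝ} (hf : ContDiff ℝ ∞ f) (hc : HasCompactSupport f) :
    ∃ C : ℝ, 0 ≤ C ∧ ∀ x, |f x| ≤ C := by
  obtain ⟨C, hC⟩ := hc.exists_bound_of_continuous hf.continuous
  exact ⟨C, (norm_nonneg _).trans (hC 0), fun x => hC x⟩

lemma fin_bdd {n : ℕ} {ι : Type} [Finite ι] (f : ι → E n → ℝ)
    (hf : ∀ i, ∃ C : ℝ, 0 ≤ C ∧ ∀ x, |f i x| ≤ C) :
    ∃ C : ℝ, 0 ≤ C ∧ ∀ i x, |f i x| ≤ C := by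
  classical
  cases nonempty_fintype ι
  choose C hC0 hC using hf
  refine ⟨∑ i, C i, Finset.sum_nonneg fun i _ => hC0 i, fun i x => ?_⟩
  exact (hC i x).trans (Finset.single_le_sum (fun i _ => hC0 i) (Finset.mem_univ i))

theorem stmt_TRC (hSW : Stmt_SW0) (hINT : Stmt_INT) (hVD : Stmt_VD) : Stmt_TRC := by
  classical
  intro n ι _ k θ h l hk hθ u a β hu hβ
  obtain ⟨hu1, hu2⟩ := hu
  obtain ⟨hVc, hV1, hV2⟩ := hVD n ι k θ h l
  -- notation
  set V := Vpot k θ h l with hVdef
  set Gs : E n → ℝ := fun x => ∑ i, G2 (k * (inner ℝ (θ i) x - h i)) with hGs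
  have hGs0 : ∀ x, 0 ≤ Gs x := fun x => Finset.sum_nonneg fun i _ => G2_nonneg hSW _
  set N : E n → ℝ := fun x => ∑ j, (pd j u x - a j) ^ 2 with hN
  have hpc : ∀ j, ContDiff ℝ ∞ (pd j u) := fun j => pd_contDiff hu1 j
  have hppc : ∀ i j, ContDiff ℝ ∞ (pd i (pd j u)) := fun i j => pd_contDiff (hpc j) i
  have hNc : ContDiff ℝ ∞ N := by
    rw [hN]
    exact ContDiff.sum fun j _ => ((hpc j).sub contDiff_const).pow 2
  have hN0 : ∀ x, 0 ≤ N x := fun x => Finset.sum_nonneg fun j _ => sq_nonneg _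
  -- bounds
  obtain ⟨C1, hC10, hC1⟩ := fin_bdd (fun j : Fin n => fun x => pd j u x - a j) (fun j => by
    obtain ⟨C, hC0, hC⟩ := test_bdd (hpc j) (pd_compact hu2 j)
    refine ⟨C + |a j|, by positivity, fun x => ?_⟩
    exact (abs_sub _ _).trans (add_le_add (hC x) le_rfl))
  obtain ⟨C2, hC20, hC2⟩ := fin_bdd (fun ij : Fin n × Fin n => fun x => pd ij.1 (pd ij.2 u) x)
    (fun ij => test_bdd (hppc ij.1 ij.2) (pd_compact (pd_compact hu2 ij.2) ij.1))
  have hNb : ∀ x, N x ≤ n * C1 ^ 2 := by
    intro x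
    have : ∀ j : Fin n, (pd j u x - a j) ^ 2 ≤ C1 ^ 2 := fun j => by
      rw [← sq_abs]
      exact pow_le_pow_left₀ (abs_nonneg _) (hC1 j x) 2
    calc N x ≤ ∑ j : Fin n, C1 ^ 2 := Finset.sum_le_sum fun j _ => this j
      _ = n * C1 ^ 2 := by simp
  have hxe : ∀ x : E n, ‖x‖ ≤ exp (1 * ‖x‖) := fun x => by
    rw [one_mul]
    have := Real.add_one_le_exp ‖x‖
    linarith
  have h1e : ∀ x : E n, (1 : ℝ) ≤ exp (1 * ‖x‖) := fun x => by
    rw [one_mul]; exact Real.one_le_exp (norm_nonneg _)
  have hxi : ∀ (x : E n) (i : Fin n), |x i| ≤ ‖x‖ := fun x i => by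
    have := EuclideanSpace.norm_eq x
    rw [this]
    refine Real.abs_le_sqrt ?_
    have h2 := Finset.single_le_sum (f := fun j => ‖x j‖ ^ 2) (fun j _ => sq_nonneg _)
      (Finset.mem_univ i)
    simpa using h2
  -- the partial derivatives of V
  obtain ⟨C3, hC30, hC3⟩ : ∃ C3 : ℝ, 0 ≤ C3 ∧ ∀ i x, |pd i V x| ≤ C3 * (1 + Gs x) := by
    refine ⟨k * (∑ i, ‖θ i‖) + ‖l‖, by positivity, fun i x => ?_⟩
    rw [hV1 i x]
    have hb : |∑ i', k * G1 (k * (inner ℝ (θ i') x - h i')) * θ i' i|
        ≤ k * (∑ i, ‖θ i‖) * Gs x := by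
      calc |∑ i', k * G1 (k * (inner ℝ (θ i') x - h i')) * θ i' i|
          ≤ ∑ i', |k * G1 (k * (inner ℝ (θ i') x - h i')) * θ i' i| :=
            Finset.abs_sum_le_sum_abs _ _
        _ ≤ ∑ i', k * ‖θ i'‖ * Gs x := by
            refine Finset.sum_le_sum fun i' _ => ?_
            obtain ⟨_, _, _, _, _, _, hg0, hg1, _⟩ := hSW
            rw [abs_mul, abs_mul, abs_of_pos hk, abs_of_nonneg (hg0 _)]
            have e1 : G1 (k * (inner ℝ (θ i') x - h i')) ≤ Gs x :=
              (hg1 _).trans (Finset.single_le_sum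
                (f := fun i => G2 (k * (inner ℝ (θ i) x - h i)))
                (fun i _ => (hg0 _).trans (hg1 _)) (Finset.mem_univ i'))
            have e2 : |θ i' i| ≤ ‖θ i'‖ := hxi _ _
            calc k * G1 (k * (inner ℝ (θ i') x - h i')) * |θ i' i|
                ≤ k * Gs x * ‖θ i'‖ := by
                  refine mul_le_mul ?_ e2 (abs_nonneg _) (mul_nonneg hk.le (hGs0 x))
                  exact mul_le_mul_of_nonneg_left e1 hk.le
              _ = k * ‖θ i'‖ * Gs x := by ring
        _ = k * (∑ i, ‖θ i‖) * Gs x := by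
            have e : ∀ g : ℝ, ∑ i', k * ‖θ i'‖ * g = k * (∑ i, ‖θ i‖) * g := fun g => by
              rw [← Finset.sum_mul, ← Finset.mul_sum]
            exact e (Gs x)
    calc |∑ i', k * G1 (k * (inner ℝ (θ i') x - h i')) * θ i' i - l i|
        ≤ |∑ i', k * G1 (k * (inner ℝ (θ i') x - h i')) * θ i' i| + |l i| := abs_sub _ _
      _ ≤ k * (∑ i, ‖θ i‖) * Gs x + ‖l‖ := add_le_add hb (hxi _ _)
      _ ≤ (k * (∑ i, ‖θ i‖) + ‖l‖) * (1 + Gs x) := by
          have : 0 ≤ ∑ i, ‖θ i‖ := Finset.sum_nonneg fun i _ => norm_nonneg _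
          nlinarith [hGs0 x, norm_nonneg l, mul_nonneg (norm_nonneg l) (hGs0 x),
            mul_nonneg hk.le this]
  have hVcont : ∀ i, Continuous (pd i V) := fun i => by
    unfold pd
    exact ((hVc.continuous_fderiv (by norm_num)).clm_apply continuous_const)
  have hNcont : Continuous N := hNc.continuous
  have hWd : ∀ x, HasFDerivAt (fun x => W k θ h l x) (-(W k θ h l x) • fderiv ℝ V x) x := by
    intro x
    have h1 : HasFDerivAt V (fderiv ℝ V x) x :=
      (hVc.differentiable (by norm_num) x).hasFDerivAt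
    have h2 := h1.neg.exp
    have e : -(W k θ h l x) • fderiv ℝ V x = exp (-V x) • -fderiv ℝ V x := by
      rw [smul_neg, neg_smul]; rfl
    rw [e]
    exact h2
  have hWpd : ∀ (i : Fin n) x, fderiv ℝ (fun x => W k θ h l x) x (EuclideanSpace.single i (1 : ℝ))
      = -(pd i V x) * W k θ h l x := by
    intro i x
    rw [(hWd x).fderiv]
    simp only [ContinuousLinearMap.smul_apply, smul_eq_mul, pd]
    ring
  -- integrability of the pieces
  have hI1 : ∀ i : Fin n, Integrable (fun x => (N x * x i * pd i V x) * W k θ h l x) := by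
    intro i
    refine integrable_W hSW hINT hk hθ h l _ ?_ (n * C1 ^ 2 * C3) 1 1 (by positivity) ?_
    · exact (hNcont.mul (by fun_prop)).mul (hVcont i)
    · intro x
      rw [abs_mul, abs_mul, abs_of_nonneg (hN0 x), pow_one]
      calc N x * |x i| * |pd i V x| ≤ (n * C1 ^ 2) * exp (1 * ‖x‖) * (C3 * (1 + Gs x)) := by
            refine mul_le_mul ?_ (hC3 i x) (abs_nonneg _) (by positivity)
            exact mul_le_mul (hNb x) ((hxi x i).trans (hxe x)) (abs_nonneg _) (by positivity)
        _ = _ := by ring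
  have hI2 : ∀ i : Fin n, Integrable (fun x => (N x * x i) * W k θ h l x) := by
    intro i
    refine integrable_W hSW hINT hk hθ h l _ (hNcont.mul (by fun_prop)) (n * C1 ^ 2) 1 0
      (by positivity) ?_
    intro x
    rw [abs_mul, abs_of_nonneg (hN0 x), pow_zero, mul_one]
    exact mul_le_mul (hNb x) ((hxi x i).trans (hxe x)) (abs_nonneg _) (by positivity)
  have hI3 : Integrable (fun x => N x * W k θ h l x) := by
    refine integrable_W hSW hINT hk hθ h l _ hNcont (n * C1 ^ 2) 1 0 (by positivity) ?_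
    intro x
    rw [abs_of_nonneg (hN0 x), pow_zero, mul_one]
    calc N x ≤ n * C1 ^ 2 * 1 := by rw [mul_one]; exact hNb x
      _ ≤ n * C1 ^ 2 * exp (1 * ‖x‖) := mul_le_mul_of_nonneg_left (h1e x) (by positivity)
  have hI4 : ∀ i j : Fin n, Integrable
      (fun x => (x i * (pd j u x - a j) * pd i (pd j u) x) * W k θ h l x) := by
    intro i j
    refine integrable_W hSW hINT hk hθ h l _ ?_ (C1 * C2) 1 0 (by positivity) ?_
    · exact ((by fun_prop : Continuous fun x : E n => x i).mul
        ((hpc j).continuous.sub continuous_const)).mul (hppc i j).continuous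
    · intro x
      rw [abs_mul, abs_mul, pow_zero, mul_one]
      calc |x i| * |pd j u x - a j| * |pd i (pd j u) x| ≤ exp (1 * ‖x‖) * C1 * C2 := by
            refine mul_le_mul ?_ (hC2 (i, j) x) (abs_nonneg _) (by positivity)
            exact mul_le_mul ((hxi x i).trans (hxe x)) (hC1 j x) (abs_nonneg _) (by positivity)
        _ = _ := by ring
  have e0 : ∀ (f : Fin n → ℝ) (w : ℝ), (2 * ∑ j, f j) * w = ∑ j, 2 * (f j * w) := fun f w => by
    rw [mul_assoc, Finset.sum_mul, Finset.mul_sum]
  -- the derivative of N * x_i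
  have hfd : ∀ (i : Fin n) x, fderiv ℝ (fun x => N x * x i) x (EuclideanSpace.single i (1 : ℝ))
      = N x + 2 * ∑ j, x i * (pd j u x - a j) * pd i (pd j u) x := by
    intro i x
    have hNd : HasFDerivAt N (∑ j : Fin n, (2 * (pd j u x - a j)) • fderiv ℝ (pd j u) x) x := by
      rw [hN]
      refine HasFDerivAt.fun_sum fun j _ => ?_
      have h1 : HasFDerivAt (fun x => pd j u x - a j) (fderiv ℝ (pd j u) x) x :=
        (((hpc j).differentiable (by simp) x).hasFDerivAt).sub_const _
      have h2 := h1.pow 2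
      simpa using h2
    have hxd : HasFDerivAt (fun x : E n => x i) (EuclideanSpace.proj i : E n →L[ℝ] ℝ) x :=
      (EuclideanSpace.proj i : E n →L[ℝ] ℝ).hasFDerivAt
    have h3 : HasFDerivAt (fun x => N x * x i) _ x := hNd.mul hxd
    rw [h3.fderiv]
    simp only [ContinuousLinearMap.add_apply, ContinuousLinearMap.smul_apply, smul_eq_mul,
      ContinuousLinearMap.sum_apply]
    have e1 : (EuclideanSpace.proj i : E n →L[ℝ] ℝ) (EuclideanSpace.single i (1 : ℝ)) = 1 := by
      simp
    rw [e1, mul_one, Finset.mul_sum, Finset.mul_sum]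
    congr 1
    refine Finset.sum_congr rfl fun j _ => ?_
    simp only [pd]
    ring
  -- integration by parts
  have hIBP : ∀ i : Fin n, ∫ x, (N x * x i * pd i V x) * W k θ h l x
      = ∫ x, (N x + 2 * ∑ j, x i * (pd j u x - a j) * pd i (pd j u) x) * W k θ h l x := by
    intro i
    have key := integral_mul_fderiv_eq_neg_fderiv_mul_of_integrable (μ := volume)
      (f := fun x : E n => N x * x i) (g := fun x => W k θ h l x)
      (v := EuclideanSpace.single i (1 : ℝ)) ?_ ?_ ?_ ?_ ?_
    · have e1 : (fun x : E n => N x * x i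
          * fderiv ℝ (fun x => W k θ h l x) x (EuclideanSpace.single i (1 : ℝ)))
          = fun x => -((N x * x i * pd i V x) * W k θ h l x) := by
        funext x; rw [hWpd]; ring
      rw [e1, integral_neg, neg_inj] at key
      rw [key]
      congr 1
      funext x
      rw [hfd]
    · have e2 : (fun x : E n => fderiv ℝ (fun x => N x * x i) x (EuclideanSpace.single i (1 : ℝ))
          * W k θ h l x) = fun x => N x * W k θ h l x
            + ∑ j, 2 * ((x i * (pd j u x - a j) * pd i (pd j u) x) * W k θ h l x) := by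
        funext x
        rw [hfd, add_mul, e0]
      rw [e2]
      exact hI3.add (integrable_finsetSum _ fun j _ => (hI4 i j).const_mul 2)
    · have e1 : (fun x : E n => N x * x i
          * fderiv ℝ (fun x => W k θ h l x) x (EuclideanSpace.single i (1 : ℝ)))
          = fun x => -((N x * x i * pd i V x) * W k θ h l x) := by
        funext x; rw [hWpd]; ring
      rw [e1]
      exact (hI1 i).neg
    · exact hI2 i
    · intro x _
      have hxd : HasFDerivAt (fun x : E n => x i) (EuclideanSpace.proj i : E n →L[ℝ] ℝ) x :=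
        (EuclideanSpace.proj i : E n →L[ℝ] ℝ).hasFDerivAt
      exact (hNc.differentiable (by simp) x).mul hxd.differentiableAt
    · intro x _
      exact (hWd x).differentiableAt
  -- sum over i
  have hsumI : Integrable (fun x => (∑ i : Fin n, N x * x i * pd i V x) * W k θ h l x) := by
    have e : (fun x => (∑ i : Fin n, N x * x i * pd i V x) * W k θ h l x)
        = fun x => ∑ i : Fin n, (N x * x i * pd i V x) * W k θ h l x := by
      funext x; rw [Finset.sum_mul]
    rw [e]
    exact integrable_finsetSum _ fun i _ => hI1 i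
  have hxV : ∀ x, ∑ i : Fin n, N x * x i * pd i V x = N x * (Sx k θ h x - inner ℝ l x) := by
    intro x
    have hin : ∀ y z : E n, inner ℝ y z = ∑ i, y i * z i := fun y z => by
      rw [PiLp.inner_apply]
      refine Finset.sum_congr rfl fun i _ => ?_
      simp [mul_comm]
    have e1 : ∑ i : Fin n, N x * x i * pd i V x = N x * ∑ i : Fin n, x i * pd i V x := by
      rw [Finset.mul_sum]
      exact Finset.sum_congr rfl fun i _ => by ring
    rw [e1]
    congr 1
    have e2 : ∀ i : Fin n, x i * pd i V x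
        = (∑ i', k * G1 (k * (inner ℝ (θ i') x - h i')) * (θ i' i * x i)) - l i * x i := by
      intro i
      rw [hV1 i x, mul_sub, Finset.mul_sum]
      congr 1
      · exact Finset.sum_congr rfl fun i' _ => by ring
      · ring
    rw [Finset.sum_congr rfl fun i _ => e2 i, Finset.sum_sub_distrib, Finset.sum_comm]
    unfold Sx
    congr 1
    · refine Finset.sum_congr rfl fun i' _ => ?_
      rw [← Finset.mul_sum, hin (θ i') x]
    · rw [hin]
  -- integrability of the remaining
  have hl : ∀ x : E n, |inner ℝ l x| ≤ ‖l‖ * ‖x‖ := fun x => abs_real_inner_le_norm l x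
  have hI5 : Integrable (fun x => (N x * inner ℝ l x) * W k θ h l x) := by
    refine integrable_W hSW hINT hk hθ h l _ (hNcont.mul (by fun_prop)) (n * C1 ^ 2 * ‖l‖) 1 0
      (by positivity) ?_
    intro x
    rw [abs_mul, abs_of_nonneg (hN0 x), pow_zero, mul_one, mul_assoc (n * C1 ^ 2)]
    refine mul_le_mul (hNb x) ((hl x).trans ?_) (abs_nonneg _) (by positivity)
    exact mul_le_mul_of_nonneg_left (hxe x) (norm_nonneg _)
  have hI6 : Integrable (fun x => (N x * ‖x‖ ^ 2) * W k θ h l x) := by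
    refine integrable_W hSW hINT hk hθ h l _ (hNcont.mul (by fun_prop)) (n * C1 ^ 2) 2 0
      (by positivity) ?_
    intro x
    rw [abs_mul, abs_of_nonneg (hN0 x), pow_zero, mul_one, abs_of_nonneg (sq_nonneg ‖x‖)]
    refine mul_le_mul (hNb x) ?_ (sq_nonneg _) (by positivity)
    have := hxe x
    calc ‖x‖ ^ 2 ≤ (exp (1 * ‖x‖)) ^ 2 := pow_le_pow_left₀ (norm_nonneg _) this 2
      _ = exp (2 * ‖x‖) := by rw [← Real.exp_nat_mul]; congr 1; push_cast; ring
  have hhsc : Continuous (fun x => hs u x) := by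
    unfold hs
    exact continuous_finsetSum _ fun i _ => continuous_finsetSum _ fun j _ =>
      ((hppc i j).continuous).pow 2
  have hhs0 : ∀ x, 0 ≤ hs u x := fun x => Finset.sum_nonneg fun i _ =>
    Finset.sum_nonneg fun j _ => sq_nonneg _
  have hI7 : Integrable (fun x => hs u x * W k θ h l x) := by
    refine integrable_W hSW hINT hk hθ h l _ hhsc (n * (n * C2 ^ 2)) 1 0 (by positivity) ?_
    intro x
    rw [abs_of_nonneg (hhs0 x), pow_zero, mul_one]
    have hb : hs u x ≤ n * (n * C2 ^ 2) := by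
      calc hs u x ≤ ∑ i : Fin n, ∑ j : Fin n, C2 ^ 2 := by
            refine Finset.sum_le_sum fun i _ => Finset.sum_le_sum fun j _ => ?_
            rw [← sq_abs]
            exact pow_le_pow_left₀ (abs_nonneg _) (hC2 (i, j) x) 2
        _ = n * (n * C2 ^ 2) := by simp
    calc hs u x ≤ n * (n * C2 ^ 2) * 1 := by rw [mul_one]; exact hb
      _ ≤ n * (n * C2 ^ 2) * exp (1 * ‖x‖) := mul_le_mul_of_nonneg_left (h1e x) (by positivity)
  -- total identity
  have htot : ∫ x, N x * (Sx k θ h x - inner ℝ l x) * W k θ h l x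
      = ∫ x, (n * N x + 2 * ∑ i, ∑ j, x i * (pd j u x - a j) * pd i (pd j u) x) * W k θ h l x := by
    have e1 : ∫ x, N x * (Sx k θ h x - inner ℝ l x) * W k θ h l x
        = ∑ i : Fin n, ∫ x, (N x * x i * pd i V x) * W k θ h l x := by
      rw [← integral_finsetSum _ fun i _ => hI1 i]
      congr 1
      funext x
      rw [← hxV x, Finset.sum_mul]
    rw [e1, Finset.sum_congr rfl fun i _ => hIBP i, ← integral_finsetSum]
    · congr 1
      funext x
      rw [← Finset.sum_mul, Finset.sum_add_distrib, Finset.sum_const, Finset.card_univ,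
        Fintype.card_fin, nsmul_eq_mul, ← Finset.mul_sum]
    · intro i _
      have e2 : (fun x : E n => (N x + 2 * ∑ j, x i * (pd j u x - a j) * pd i (pd j u) x)
          * W k θ h l x) = fun x => N x * W k θ h l x
            + ∑ j, 2 * ((x i * (pd j u x - a j) * pd i (pd j u) x) * W k θ h l x) := by
        funext x
        rw [add_mul, e0]
      rw [e2]
      exact hI3.add (integrable_finsetSum _ fun j _ => (hI4 i j).const_mul 2)
  -- pointwise inequality
  have hpt : ∀ x, 2 * ∑ i, ∑ j, x i * (pd j u x - a j) * pd i (pd j u) x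
      ≤ ‖x‖ ^ 2 / β * N x + β * hs u x := by
    intro x
    have hn : ‖x‖ ^ 2 = ∑ i, (x i) ^ 2 := by
      rw [EuclideanSpace.norm_sq_eq]
      simp
    have e1 : ‖x‖ ^ 2 / β * N x + β * hs u x
        = ∑ i, ∑ j, ((x i) ^ 2 * (pd j u x - a j) ^ 2 / β + β * (pd i (pd j u) x) ^ 2) := by
      simp only [Finset.sum_add_distrib]
      congr 1
      · rw [hn, hN, div_mul_eq_mul_div, Finset.sum_mul_sum, Finset.sum_div]
        exact Finset.sum_congr rfl fun i _ => by rw [Finset.sum_div]
      · unfold hs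
        rw [Finset.mul_sum]
        exact Finset.sum_congr rfl fun i _ => by rw [Finset.mul_sum]
    rw [e1, Finset.mul_sum]
    refine Finset.sum_le_sum fun i _ => ?_
    rw [Finset.mul_sum]
    refine Finset.sum_le_sum fun j _ => ?_
    have h2 : 0 ≤ (x i * (pd j u x - a j) - β * pd i (pd j u) x) ^ 2 / β :=
      div_nonneg (sq_nonneg _) hβ.le
    have e3 : (x i * (pd j u x - a j) - β * pd i (pd j u) x) ^ 2 / β
        = (x i) ^ 2 * (pd j u x - a j) ^ 2 / β + β * (pd i (pd j u) x) ^ 2
          - 2 * (x i * (pd j u x - a j) * pd i (pd j u) x) := by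
      field_simp
      ring
    linarith
  -- conclusion
  have hJ1 : Integrable (fun x => N x * (Sx k θ h x - inner ℝ l x) * W k θ h l x) := by
    refine hsumI.congr (Filter.Eventually.of_forall fun x => ?_)
    simp only [hxV x]
  have hJ2 : Integrable (fun x => N x * Sx k θ h x * W k θ h l x) := by
    refine (hJ1.add hI5).congr (Filter.Eventually.of_forall fun x => ?_)
    simp only [Pi.add_apply]
    ring
  have hJ3 : Integrable (fun x => ((n : ℝ) + inner ℝ l x + ‖x‖ ^ 2 / β) * N x * W k θ h l x) := by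
    refine (((hI3.const_mul (n : ℝ)).add hI5).add (hI6.const_mul (1 / β))).congr
      (Filter.Eventually.of_forall fun x => ?_)
    simp only [Pi.add_apply]
    ring
  have hJ4 : Integrable (fun x => (n * N x
      + 2 * ∑ i, ∑ j, x i * (pd j u x - a j) * pd i (pd j u) x) * W k θ h l x) := by
    have e : (fun x => (n * N x
      + 2 * ∑ i, ∑ j, x i * (pd j u x - a j) * pd i (pd j u) x) * W k θ h l x)
      = fun x => n * (N x * W k θ h l x)
        + ∑ i, ∑ j, 2 * ((x i * (pd j u x - a j) * pd i (pd j u) x) * W k θ h l x) := by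
      funext x
      rw [add_mul, mul_assoc, mul_assoc]
      congr 1
      rw [Finset.sum_mul, Finset.mul_sum]
      refine Finset.sum_congr rfl fun i _ => ?_
      rw [Finset.sum_mul, Finset.mul_sum]
    rw [e]
    exact (hI3.const_mul _).add (integrable_finsetSum _ fun i _ =>
      integrable_finsetSum _ fun j _ => (hI4 i j).const_mul 2)
  have e1 : ∫ x, N x * Sx k θ h x * W k θ h l x
      = (∫ x, N x * (Sx k θ h x - inner ℝ l x) * W k θ h l x)
        + ∫ x, (N x * inner ℝ l x) * W k θ h l x := by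
    rw [← integral_add hJ1 hI5]
    congr 1
    funext x
    ring
  have e2 : (∫ x, ((n : ℝ) + inner ℝ l x + ‖x‖ ^ 2 / β) * N x * W k θ h l x)
      + β * ∫ x, hs u x * W k θ h l x
      = ∫ x, (((n : ℝ) + inner ℝ l x + ‖x‖ ^ 2 / β) * N x * W k θ h l x
        + β * (hs u x * W k θ h l x)) := by
    rw [integral_add hJ3 (hI7.const_mul β), integral_const_mul]
  show ∫ x, N x * Sx k θ h x * W k θ h l x ≤ (∫ x, ((n : ℝ) + inner ℝ l x + ‖x‖ ^ 2 / β) * N x
    * W k θ h l x) + β * ∫ x, hs u x * W k θ h l x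
  rw [e1, htot, e2, ← integral_add hJ4 hI5]
  refine integral_mono (hJ4.add hI5) (hJ3.add (hI7.const_mul β)) fun x => ?_
  have hW := W_pos k θ h l x
  have h1 := mul_le_mul_of_nonneg_right (hpt x) hW.le
  simp only []
  nlinarith [h1]

end Pool.Agent.Work.LPBM.helper81
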