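import Pool.Agent.Work.MP_b5407d_lp.Interface

set_option autoImplicit false
open MeasureTheory Real Filter Topology
open scoped ContDiff

namespace Pool.Agent.Work.LPBM.helper81

open Pool.Agent.Work.LPBM

lemma W_pos {n : ℕ} {ι : Type} [Fintype ι] (k : ℝ) (θ : ι → E n) (h : ι → ℝ) (l x : E n) :
    0 < W k θ h l x := Real.exp_pos _

lemma contG0 (hSW : Stmt_SW0) : Continuous G0 :=
  continuous_iff_continuousAt.2 fun s => (hSW.1 s).continuousAt

lemma contG1 (hSW : Stmt_SW0) : Continuous G1 :=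
  continuous_iff_continuousAt.2 fun s => (hSW.2.1 s).continuousAt

lemma contG2 (hSW : Stmt_SW0) : Continuous G2 := hSW.2.2.1

lemma contW (hSW : Stmt_SW0) {n : ℕ} {ι : Type} [Fintype ι] (k : ℝ) (θ : ι → E n) (h : ι → ℝ)
    (l : E n) : Continuous (fun x => W k θ h l x) := by
  have h0 := contG0 hSW
  unfold W wt Vpot Upot
  fun_prop

lemma G2_nonneg (hSW : Stmt_SW0) (s : ℝ) : 0 ≤ G2 s := by
  obtain ⟨_, _, _, _, _, _, h1, h2, _⟩ := hSW
  exact (h1 s).trans (h2 s)

/-- integrability of everything of exponential growth and polynomial growth in `G2` -/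
lemma integrable_W (hSW : Stmt_SW0) (hINT : Stmt_INT) {n : ℕ} {ι : Type} [Fintype ι] {k : ℝ}
    (hk : 0 < k) {θ : ι → E n} (hθ : Span θ) (h : ι → ℝ) (l : E n) (F : E n → ℝ)
    (hF : Continuous F) (C A : ℝ) (m : ℕ) (hC : 0 ≤ C)
    (hb : ∀ x, |F x| ≤ C * (exp (A * ‖x‖)
      * (1 + ∑ i, G2 (k * (inner ℝ (θ i) x - h i))) ^ m)) :
    Integrable (fun x => F x * W k θ h l x) := by
  obtain ⟨B, hB, hBb⟩ := hINT n ι θ hθ k k (∑ i, |h i|) (max A ‖l‖) hk m
  have hB' := fun x => hBb k h l le_rfl le_rfl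
    (fun i => Finset.single_le_sum (f := fun i => |h i|) (fun i _ => abs_nonneg (h i))
      (Finset.mem_univ i)) (le_max_right A ‖l‖) x
  refine Integrable.mono' (hB.const_mul C) ?_ ?_
  · exact (hF.mul (contW hSW k θ h l)).aestronglyMeasurable
  · refine Filter.Eventually.of_forall fun x => ?_
    have hW := W_pos k θ h l x
    have hS : 0 ≤ ∑ i, G2 (k * (inner ℝ (θ i) x - h i)) :=
      Finset.sum_nonneg fun i _ => G2_nonneg hSW _
    have h1 : exp (A * ‖x‖) ≤ exp (max A ‖l‖ * ‖x‖) :=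
      exp_le_exp.2 (mul_le_mul_of_nonneg_right (le_max_left _ _) (norm_nonneg _))
    rw [Real.norm_eq_abs, abs_mul, abs_of_pos hW]
    calc |F x| * W k θ h l x
        ≤ (C * (exp (A * ‖x‖) * (1 + ∑ i, G2 (k * (inner ℝ (θ i) x - h i))) ^ m)) * W k θ h l x :=
          mul_le_mul_of_nonneg_right (hb x) hW.le
      _ ≤ (C * (exp (max A ‖l‖ * ‖x‖) * (1 + ∑ i, G2 (k * (inner ℝ (θ i) x - h i))) ^ m))
            * W k θ h l x := by
          refine mul_le_mul_of_nonneg_right ?_ hW.le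
          refine mul_le_mul_of_nonneg_left ?_ hC
          exact mul_le_mul_of_nonneg_right h1 (pow_nonneg (by linarith) _)
      _ = C * (exp (max A ‖l‖ * ‖x‖) * (1 + ∑ i, G2 (k * (inner ℝ (θ i) x - h i))) ^ m
            * W k θ h l x) := by ring
      _ ≤ C * B x := mul_le_mul_of_nonneg_left (hB' x) hC

end Pool.Agent.Work.LPBM.helper81
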